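import Pool.Agent.helper12.DD.Spec2

set_option autoImplicit false

namespace Pool.Agent.DD

lemma NIL_fin (N : Type) [Finite N] (p : ℕ) [NeZero p] : Finite (MonoidAlgebra (ZMod p) N) :=
  Finite.of_injective (fun z => (z.coeff : N → ZMod p)) fun a b h => by
    apply MonoidAlgebra.ext
    ext n
    exact congrFun h n

/-- The elements `x - 1`, `x` in a normal `p`-subgroup, lie in the Jacobson radical. -/
lemma NIL_jac (N : Type) [Group N] [Fintype N] (p : ℕ) [hpp : Fact p.Prime] (P : Subgroup N)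
    (hP : P.Normal) (hp : IsPGroup p P) (x : N) (hx : x ∈ P) :
    (MonoidAlgebra.single x (1 : ZMod p) - 1 : MonoidAlgebra (ZMod p) N) ∈
      Ring.jacobson (MonoidAlgebra (ZMod p) N) := by
  rw [Ring.jacobson_eq_sInf_isMaximal, Submodule.mem_sInf]
  intro m hm
  have hm : Ideal.IsMaximal m := hm
  have hsimple : IsSimpleModule (MonoidAlgebra (ZMod p) N) (MonoidAlgebra (ZMod p) N ⧸ m) :=
    isSimpleModule_iff_isCoatom.2 (Ideal.isMaximal_def.1 hm)
  have : NeZero p := ⟨(Fact.out : p.Prime).ne_zero⟩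
  have hfinR : Finite (MonoidAlgebra (ZMod p) N) := NIL_fin N p
  have hfin : Finite (MonoidAlgebra (ZMod p) N ⧸ m) := Quotient.finite _
  let F : Submodule (MonoidAlgebra (ZMod p) N) (MonoidAlgebra (ZMod p) N ⧸ m) :=
    { carrier := {v | ∀ x ∈ P, (MonoidAlgebra.single x (1 : ZMod p) :
        MonoidAlgebra (ZMod p) N) • v = v}
      add_mem' := fun {a b} ha hb x hx => by rw [smul_add, ha x hx, hb x hx]
      zero_mem' := fun x hx => smul_zero _
      smul_mem' := by
        intro r v hv x hx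
        induction r using MonoidAlgebra.induction_on with
        | of n =>
          have h1 : (MonoidAlgebra.single x (1 : ZMod p) : MonoidAlgebra (ZMod p) N) *
              MonoidAlgebra.of (ZMod p) N n =
              MonoidAlgebra.of (ZMod p) N n * MonoidAlgebra.single (n⁻¹ * x * n) 1 := by
            simp [MonoidAlgebra.single_mul_single, mul_assoc]
          have h2 : n⁻¹ * x * n ∈ P := by
            simpa using hP.conj_mem x hx n⁻¹
          rw [smul_smul, h1, ← smul_smul, hv _ h2]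
        | add f g hf hg => rw [add_smul, smul_add, hf, hg]
        | smul r f hf =>
          rw [smul_assoc, smul_comm, hf] }
  have hF : F = ⊥ ∨ F = ⊤ := eq_bot_or_eq_top F
  have hnt : Nontrivial (MonoidAlgebra (ZMod p) N ⧸ m) := IsSimpleModule.nontrivial (MonoidAlgebra (ZMod p) N) _
  have hFt : F = ⊤ := by
    refine hF.resolve_left fun h => ?_
    let _ : MulAction P (MonoidAlgebra (ZMod p) N ⧸ m) :=
      MulAction.compHom _ ((MonoidAlgebra.of (ZMod p) N).comp P.subtype)
    have hdvd : p ∣ Nat.card (MonoidAlgebra (ZMod p) N ⧸ m) := by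
      obtain ⟨l, hl⟩ := exists_ne (0 : MonoidAlgebra (ZMod p) N ⧸ m)
      have h1 : p • l = 0 := by
        have h2 : ((p : ℕ) : MonoidAlgebra (ZMod p) N) • l = 0 := by
          have : ((p : ℕ) : MonoidAlgebra (ZMod p) N) = 0 := by
            have h3 : ((p : ℕ) : MonoidAlgebra (ZMod p) N) =
                algebraMap (ZMod p) (MonoidAlgebra (ZMod p) N) (p : ZMod p) :=
              (map_natCast _ p).symm
            rw [h3, ZMod.natCast_self, map_zero]
          rw [this, zero_smul]
        rwa [Nat.cast_smul_eq_nsmul] at h2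
      have h4 : addOrderOf l = p := addOrderOf_eq_prime h1 hl
      have h5 := addOrderOf_dvd_natCard l
      rwa [h4] at h5
    obtain ⟨b, hb, hb0⟩ := hp.exists_fixed_point_of_prime_dvd_card_of_fixed_point
      (MonoidAlgebra (ZMod p) N ⧸ m) hdvd (a := 0)
      (fun y => show (MonoidAlgebra.of (ZMod p) N (y : N)) •
        (0 : MonoidAlgebra (ZMod p) N ⧸ m) = 0 from smul_zero _)
    have hbF : b ∈ F := fun y hy => hb ⟨y, hy⟩
    rw [h] at hbF
    exact hb0 ((Submodule.mem_bot _).1 hbF).symm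
  have h1 : (Submodule.Quotient.mk 1 : MonoidAlgebra (ZMod p) N ⧸ m) ∈ F := by
    rw [hFt]
    exact Submodule.mem_top
  have h2 := h1 x hx
  rw [← Submodule.Quotient.mk_smul, smul_eq_mul, mul_one] at h2
  exact (Submodule.Quotient.eq m).1 h2

theorem NIL : NIL_stmt := by
  intro N _ _ p hpr P hP hp x hx g
  have : Fact p.Prime := ⟨hpr⟩
  have : NeZero p := ⟨(Fact.out : p.Prime).ne_zero⟩
  have hfinR : Finite (MonoidAlgebra (ZMod p) N) := NIL_fin N p
  obtain ⟨k, hk⟩ := IsSemiprimaryRing.isNilpotent (R := MonoidAlgebra (ZMod p) N)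
  set z : MonoidAlgebra ℤ N := ∑ y : N, (MonoidAlgebra.single (y * (x * g) * y⁻¹) (1 : ℤ) -
        MonoidAlgebra.single (y * g * y⁻¹) (1 : ℤ)) with hz
  let f := MonoidAlgebra.mapRingHom N (Int.castRingHom (ZMod p))
  have hfz : f z ∈ Ring.jacobson (MonoidAlgebra (ZMod p) N) := by
    rw [hz, map_sum]
    refine Submodule.sum_mem _ fun y _ => ?_
    have h1 : f (MonoidAlgebra.single (y * (x * g) * y⁻¹) (1 : ℤ) -
        MonoidAlgebra.single (y * g * y⁻¹) (1 : ℤ)) =
        (MonoidAlgebra.single (y * x * y⁻¹) (1 : ZMod p) - 1) *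
          MonoidAlgebra.single (y * g * y⁻¹) 1 := by
      rw [sub_mul, one_mul, MonoidAlgebra.single_mul_single, map_sub]
      simp [f, mul_assoc]
    rw [h1]
    exact Ideal.mul_mem_right _ _ (NIL_jac N p P hP hp _ (hP.conj_mem x hx y))
  have h0 : f (z ^ (k + 1)) = 0 := by
    rw [map_pow]
    have h2 : f z ^ k ∈ Ring.jacobson (MonoidAlgebra (ZMod p) N) ^ k :=
      Ideal.pow_mem_pow hfz k
    rw [hk] at h2
    have h3 : f z ^ k = 0 := (Submodule.mem_bot _).1 h2
    rw [pow_succ, h3, zero_mul]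
  refine ⟨k + 1, MonoidAlgebra.ofCoeff ((z ^ (k + 1)).coeff.mapRange (fun t => t / p) (by simp)),
    Nat.succ_pos _, ?_⟩
  rw [← nsmul_eq_mul]
  ext a
  have h3 : ((z ^ (k + 1)).coeff a : ZMod p) = 0 := by
    have := congrArg (fun w => w.coeff a) h0
    simpa [f, MonoidAlgebra.coe_mapRingHom] using this
  have h4 : (p : ℤ) ∣ (z ^ (k + 1)).coeff a := (ZMod.intCast_zmod_eq_zero_iff_dvd _ _).1 h3
  rw [MonoidAlgebra.coeff_smul_apply, MonoidAlgebra.coeff_ofCoeff, Finsupp.mapRange_apply,
    nsmul_eq_mul, Int.mul_ediv_cancel' h4]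

end Pool.Agent.DD
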